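import Pool.Agent.H27.FourA

/-! Unbounded base-4 valuations of colored 4-ary partition counts for `m = 6 mod 8`. -/

namespace Pool.Agent.Results.MP_53b42b_nt.Full
open Finset PowerSeries Pool.Agent.H60.PAry Pool.Agent.H27.Four

set_option maxHeartbeats 400000

def Inv (D : ℤ⟦X⟧) : Prop := coeff 1 D % 2 = 1 ∧ 4 ∣ coeff 2 D ∧ 4 ∣ coeff 3 D ∧ (∀ k, 4 ≤ k → 8 ∣ coeff k D) ∧ Wt 0 D

theorem quo {a : ℤ} {A : ℤ⟦X⟧} (h : ∀ k, a ∣ coeff k A) : ∃ Z, A = C a * Z :=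
  ⟨PowerSeries.mk fun k => coeff k A / a, by
    ext k
    rw [coeff_C_mul, coeff_mk, Int.mul_ediv_cancel' (h k)]⟩

theorem coeff_Bt (n : ℕ) (D : ℤ⟦X⟧) : coeff n (Bt D) = ∑ k ∈ range (n + 1), (n.choose k : ℤ) * coeff k D := by
  rw [Bt, coeff_mk, L_binom]

theorem odd_pow (y : ℤ⟦X⟧) (i : ℕ) : ∃ Z, (1 + 4 * y) ^ (2 * i + 1) = 1 + 4 * y + 8 * Z := by
  induction i with
  | zero => exact ⟨0, by simp⟩
  | succ i ih =>
    obtain ⟨Z, h⟩ := ih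
    exact ⟨Z + (1 + 4 * y + 8 * Z) * (y + 2 * y ^ 2), by rw [Nat.mul_succ, add_right_comm, pow_add, h]; ring⟩

theorem mkInv {a : ℤ} {e : ℕ} {A : ℤ⟦X⟧} (ha : a = 2 ^ e) (h0 : a ∣ coeff 0 A) (h1 : coeff 1 A % (2 * a) = a)
    (h2 : 4 * a ∣ coeff 2 A) (h3 : 4 * a ∣ coeff 3 A) (h4 : ∀ k, 4 ≤ k → (2 : ℤ) ^ (e + max 3 (k / 2)) ∣ coeff k A) :
    ∃ D, Inv D ∧ A = C a * D := by
  have p : 0 < a := by rw [ha]; positivity
  have h1' : a ∣ coeff 1 A := ⟨2 * (coeff 1 A / (2 * a)) + 1, by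
    have := Int.mul_ediv_add_emod (coeff 1 A) (2 * a); rw [h1] at this; linear_combination -this⟩
  obtain ⟨D, rfl⟩ := quo (a := a) (A := A) fun k => by
    by_cases h : k < 4
    · interval_cases k
      exacts [h0, h1', (dvd_mul_left a 4).trans h2, (dvd_mul_left a 4).trans h3]
    · exact ha ▸ (pow_dvd_pow 2 (by omega)).trans (h4 k (by omega))
  simp only [coeff_C_mul, mul_comm _ a, mul_dvd_mul_iff_left p.ne', Int.mul_emod_mul_of_pos _ _ p] at h1 h2 h3 h4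
  have h5 : ∀ k, 4 ≤ k → (2 : ℤ) ^ max 3 (k / 2) ∣ coeff k D := fun k hk => by
    have := h4 k hk
    rwa [pow_add, ← ha, mul_dvd_mul_iff_left p.ne'] at this
  refine ⟨D, ⟨mul_left_cancel₀ p.ne' (by rw [h1, mul_one]), h2, h3,
    fun k hk => (pow_dvd_pow 2 (le_max_left 3 (k / 2))).trans (h5 k hk), fun k => ?_⟩, rfl⟩
  by_cases h : k < 4
  · interval_cases k
    exacts [one_dvd _, one_dvd _, Dvd.dvd.trans (by decide) h2, Dvd.dvd.trans (by decide) h3]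
  · exact (pow_dvd_pow 2 (le_max_right 3 (k / 2))).trans (h5 k (by omega))

theorem step (i : ℕ) {D : ℤ⟦X⟧} (h : Inv D) :
    ∃ q < 4, ∃ E, Inv E ∧ sc q (D * g ^ (2 * (2 * i + 1))) = C 4 * E := by
  obtain ⟨h1, h2, h3, h4, h5⟩ := h
  have w := (h5.mul (Wt_g (2 * (2 * i + 1)))).sc
  obtain ⟨Z, hZ⟩ := odd_pow (X ^ 2 + X ^ 4 + 2 * (X + 3 * X ^ 2 + 7 * X ^ 3 + 8 * X ^ 4 + 6 * X ^ 5 + 2 * X ^ 6)) i
  obtain ⟨Y, hY⟩ : ∃ Y, D * g ^ (2 * (2 * i + 1)) = D + C 4 * (X ^ 2 * D) + C 4 * (X ^ 4 * D) + C 8 * Y :=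
    ⟨D * (X + 3 * X ^ 2 + 7 * X ^ 3 + 8 * X ^ 4 + 6 * X ^ 5 + 2 * X ^ 6 + Z), by
      rw [pow_mul, show g ^ 2 = 1 + 4 * (X ^ 2 + X ^ 4 + 2 * (X + 3 * X ^ 2 + 7 * X ^ 3 + 8 * X ^ 4 + 6 * X ^ 5 +
        2 * X ^ 6)) by rw [g]; ring, hZ]
      simp only [map_ofNat]
      ring⟩
  have d : ∀ k, coeff k (D * g ^ (2 * (2 * i + 1))) = coeff k D + 4 * (if 2 ≤ k then coeff (k - 2) D else 0) +
      4 * (if 4 ≤ k then coeff (k - 4) D else 0) + 8 * coeff k Y := fun k => by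
    rw [hY]
    simp only [map_add, coeff_C_mul, coeff_X_pow_mul']
  generalize D * g ^ (2 * (2 * i + 1)) = A at *
  obtain ⟨q, hq, h0⟩ : ∃ q : ℕ, q < 4 ∧ (coeff 0 D + q * coeff 1 D) % 4 = 0 := by
    have t : coeff 0 D % 4 = 0 ∨ (coeff 0 D + 1 * coeff 1 D) % 4 = 0 ∨ (coeff 0 D + 2 * coeff 1 D) % 4 = 0 ∨
        (coeff 0 D + 3 * coeff 1 D) % 4 = 0 := by
      rcases (by omega : coeff 1 D % 4 = 1 ∨ coeff 1 D % 4 = 3) with h | h <;>
        rcases (by omega : coeff 0 D % 4 = 0 ∨ coeff 0 D % 4 = 1 ∨ coeff 0 D % 4 = 2 ∨ coeff 0 D % 4 = 3) with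
          h' | h' | h' | h' <;> omega
    rcases t with h | h | h | h
    exacts [⟨0, by omega, by simpa using h⟩, ⟨1, by omega, h⟩, ⟨2, by omega, h⟩, ⟨3, by omega, h⟩]
  have a4 := h4 4 le_rfl
  have a5 := h4 5 (by omega)
  have a6 := h4 6 (by omega)
  have a7 := h4 7 (by omega)
  obtain ⟨s0, s1, -⟩ := sc_co q A
  refine ⟨q, hq, mkInv (e := 2) (by norm_num) ?_ ?_ (w q 2) (Dvd.dvd.trans (by decide) (w q 3)) fun k hk =>
    (pow_dvd_pow 2 (by omega)).trans (w q k)⟩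
  · rw [s0, coeff_Bt]
    interval_cases q <;> simp [sum_range_succ, Nat.choose, d] at h0 ⊢ <;> omega
  · rw [s1, coeff_Bt, coeff_Bt]
    interval_cases q <;> simp [sum_range_succ, Nat.choose, d] at h0 ⊢ <;> omega

def Sh (u : ℤ) (D : ℤ⟦X⟧) (a b : List ℕ) : Prop := ∃ Z, D = ofL ℤ a + C (16 * u) * ofL ℤ b + C 256 * Z

theorem Sh.add {u : ℤ} {D E : ℤ⟦X⟧} {a b c d : List ℕ} (h : Sh u D a b) (h' : Sh u E c d) :
    Sh u (D + E) (addL a c) (addL b d) := by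
  obtain ⟨Z, rfl⟩ := h
  obtain ⟨Y, rfl⟩ := h'
  exact ⟨Z + Y, by rw [ofL_addL, ofL_addL]; ring⟩

theorem Sh.mul {u : ℤ} {D E : ℤ⟦X⟧} {a b c d : List ℕ} (h : Sh u D a b) (h' : Sh u E c d) :
    Sh u (D * E) (mulL a c) (addL (mulL a d) (mulL b c)) := by
  obtain ⟨Z, rfl⟩ := h
  obtain ⟨Y, rfl⟩ := h'
  refine ⟨C u * C u * ofL ℤ b * ofL ℤ d + Z * (ofL ℤ c + C (16 * u) * ofL ℤ d + C 256 * Y) +
    (ofL ℤ a + C (16 * u) * ofL ℤ b) * Y, ?_⟩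
  simp only [ofL_addL, ofL_mulL, map_mul, map_ofNat]
  ring

def phi (l : List ℕ) (n : ℕ) : ℕ := ∑ k ∈ range (n + 1), n.choose k * l.getD k 0

def secL (q : ℕ) (l : List ℕ) : List ℕ := [phi l q % 256, (phi l (q + 4) + 255 * phi l q) % 256,
  (phi l (q + 8) + 254 * phi l (q + 4) + phi l q) % 256,
  (phi l (q + 12) + 253 * phi l (q + 8) + 3 * phi l (q + 4) + 255 * phi l q) % 256]

theorem Sh.sec {u : ℤ} {D : ℤ⟦X⟧} {a b : List ℕ} (h : Sh u D a b) (w : Wt 2 D) (q : ℕ) :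
    Sh u (sc q D) (secL q a) (secL q b) := by
  obtain ⟨Z, h⟩ := h
  have e : ∀ n, coeff n (Bt D) = phi a n + 16 * u * phi b n + 256 * coeff n (Bt Z) := fun n => by
    rw [h, Bt_lin, Bt_lin]
    simp only [map_add, coeff_C_mul, coeff_Bt, coeff_ofL, phi, Nat.cast_sum, Nat.cast_mul]
  have m : ∀ x : ℕ, ∃ y : ℤ, ((x % 256 : ℕ) : ℤ) = x - 256 * y := fun x => ⟨x / 256, by omega⟩
  obtain ⟨Y, hY⟩ := quo (a := 256) (A := sc q D - (ofL ℤ (secL q a) + C (16 * u) * ofL ℤ (secL q b))) fun k => by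
    rw [map_sub, map_add, coeff_C_mul, coeff_ofL, coeff_ofL]
    obtain ⟨s0, s1, s2, s3⟩ := sc_co q D
    by_cases hk : k < 4
    · interval_cases k
      all_goals
        simp only [secL, List.getD_cons_succ, List.getD_cons_zero, s0, s1, s2, s3, e]
        obtain ⟨y, hy⟩ := m _
        rw [hy]
        obtain ⟨z, hz⟩ := m _
        rw [hz]
        push_cast
        ring_nf
        omega
    · rw [List.getD_eq_default _ _ (by simp [secL]; omega), List.getD_eq_default _ _ (by simp [secL]; omega)]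
      simpa using (pow_dvd_pow (2 : ℤ) (by omega : 8 ≤ 2 * k + 2 / 2)).trans (w.sc q k)
  exact ⟨Y, by linear_combination hY⟩

def lg : List ℕ := [1, 4, 6, 4]
def l2 : List ℕ := [0, 8, 20, 36, 32, 16]
def l8 : List ℕ := [0, 2, 29, 281, 1966, 10606, 45842, 162886, 484272, 1219680, 2624448, 4851104, 7725488, 10606224,
  12531824, 12690448, 10936320, 7934208, 4769280, 2319872, 880640, 245760, 45056, 4096]
def ka : List ℕ := mulL l2 (addL [1] (addL (powL 0 lg 2) (powL 0 lg 4)))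
def kb : List ℕ := mulL (powL 0 lg 6) l8

theorem exK (u : ℕ) : ∃ K, (1 + X) * K = g ^ (8 * u + 6) - 1 ∧ Wt 2 K ∧ Sh u K ka kb := by
  have e1 : ofL ℤ lg = g := by simp only [lg, ofL, g]; push_cast; ring
  have e0 : ofL ℤ [1] = 1 := by simp [ofL]
  have e2 : (1 + X) * ofL ℤ l2 = g ^ 2 - 1 := by simp only [l2, ofL, g]; push_cast; ring
  have p : ∀ k, ofL ℤ (powL 0 lg k) = g ^ k := fun k => by rw [ofL_powL 0 rfl, e1]
  have e3 := ofL_eqL (R := ℤ) 0 rfl (mulL [16] l8) (mulL l2 (addL (addL [1] (powL 0 lg 2)) (addL (powL 0 lg 4)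
    (powL 0 lg 6)))) (by decide +kernel)
  rw [ofL_mulL, ofL_mulL, ofL_addL, ofL_addL, ofL_addL, p, p, p, e0, show ofL ℤ [16] = 16 by simp [ofL]] at e3
  have w2 : Wt 2 (ofL ℤ l2) := fun k => by
    rw [coeff_ofL]
    by_cases h : k < 6
    · interval_cases k <;> decide
    · rw [List.getD_eq_default _ _ (by simp [l2]; omega)]
      simp
  have ea : ofL ℤ ka = ofL ℤ l2 * (1 + (g ^ 2 + g ^ 4)) := by rw [ka, ofL_mulL, ofL_addL, ofL_addL, p, p, e0]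
  have eb : ofL ℤ kb = g ^ 6 * ofL ℤ l8 := by rw [kb, ofL_mulL, p]
  unfold Sh
  rw [ea, eb]
  generalize ofL ℤ l2 = k, ofL ℤ l8 = E at *
  induction u with
  | zero =>
    exact ⟨_, by linear_combination (1 + (g ^ 2 + g ^ 4)) * e2, w2.mul (Wt_one.add ((Wt_g 2).add (Wt_g 4))), 0, by simp⟩
  | succ u ih =>
    obtain ⟨K, h1, h2, Z, h3⟩ := ih
    have e4 : g ^ 8 = 1 + 16 * ((1 + X) * E) := by
      linear_combination -(1 + X) * e3 - (1 + g ^ 2 + (g ^ 4 + g ^ 6)) * e2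
    refine ⟨K * g ^ 8 + 16 * E, by linear_combination g ^ 8 * h1 - e4,
      (h2.mul (Wt_g 8)).add (e3 ▸ w2.mul ((Wt_one.add (Wt_g 2)).add ((Wt_g 4).add (Wt_g 6)))),
      Z * g ^ 8 + C (u : ℤ) * g ^ 6 * E * ((1 + X) * E), ?_⟩
    rw [h3, e4]
    simp only [map_mul, map_ofNat, Nat.cast_add, Nat.cast_one, map_add, map_one]
    linear_combination 16 * E * (1 + (g ^ 2 + g ^ 4)) * e2

def ga : List ℕ := addL [1] (mulL [1, 1] ka)
def gb : List ℕ := addL [] (addL (mulL [1, 1] kb) (mulL [] ka))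
def na (a : List ℕ) : List ℕ := addL ka (mulL a ga)
def nb (a b : List ℕ) : List ℕ := addL kb (addL (mulL a gb) (mulL b ga))

theorem base (u : ℕ) : ∃ D, Inv D ∧ Val (8 * u + 6) (Bt (C (4 ^ 3) * D)) := by
  obtain ⟨K, h1, h2, h3⟩ := exK u
  have hg : Sh u (g ^ (8 * u + 6)) ga gb := by
    rw [show g ^ (8 * u + 6) = 1 + (1 + X) * K by rw [h1]; ring]
    exact Sh.add ⟨0, by simp [ofL]⟩ (Sh.mul ⟨0, by simp [ofL]⟩ h3)
  have st : ∀ {D a b}, Wt 2 D → Sh u D a b → ∀ q, Wt 2 (sc q (K + D * g ^ (8 * u + 6))) ∧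
      Sh u (sc q (K + D * g ^ (8 * u + 6))) (secL q (na a)) (secL q (nb a b)) ∧
      ∀ k, (2 : ℤ) ^ (2 * k + 1) ∣ coeff k (sc q (K + D * g ^ (8 * u + 6))) := fun w s q =>
    have w' := h2.add (w.mul (Wt_g (8 * u + 6)))
    ⟨fun k => (pow_dvd_pow 2 (by omega)).trans (w'.sc q k), (h3.add (s.mul hg)).sec w' q, w'.sc q⟩
  have v0 : Val (8 * u + 6) (1 + Bt 0) := fun n => ⟨n, by
    rw [show Bt 0 = 0 by ext n; simp [coeff_Bt], add_zero, one_mul]⟩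
  obtain ⟨w1, s1, -⟩ := st (D := 0) (a := []) (b := []) (fun k => by simp) ⟨0, by simp [ofL]⟩ 0
  have v1 := (v0.s1 h1).1
  have fin : ∀ {A a b}, Val (8 * u + 6) (Bt A) → Sh u A a b → (∀ k, (2 : ℤ) ^ (2 * k + 1) ∣ coeff k A) →
      ((a.getD 0 0 : ℤ) + 16 * u * b.getD 0 0) % 64 = 0 → ((a.getD 1 0 : ℤ) + 16 * u * b.getD 1 0) % 128 = 64 →
      ((a.getD 2 0 : ℤ) + 16 * u * b.getD 2 0) % 256 = 0 → ((a.getD 3 0 : ℤ) + 16 * u * b.getD 3 0) % 256 = 0 →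
      ∃ D, Inv D ∧ Val (8 * u + 6) (Bt (C (4 ^ 3) * D)) := fun {A a b} v ⟨Z, s⟩ w c0 c1 c2 c3 => by
    have c : ∀ k, coeff k A = a.getD k 0 + 16 * u * b.getD k 0 + 256 * coeff k Z := fun k => by
      rw [s, map_add, map_add, coeff_C_mul, coeff_C_mul, coeff_ofL, coeff_ofL]
    obtain ⟨D, i, rfl⟩ := mkInv (a := 4 ^ 3) (e := 6) (A := A) (by norm_num) (by rw [c]; omega) (by rw [c]; omega)
      (by rw [c]; omega) (by rw [c]; omega) fun k hk => (pow_dvd_pow 2 (by omega)).trans (w k)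
    exact ⟨D, i, v⟩
  rcases Nat.mod_two_eq_zero_or_one u with hu | hu
  · obtain ⟨w2, s2, -⟩ := st w1 s1 0
    obtain ⟨-, s3, w3⟩ := st w2 s2 1
    rw [show secL 1 (na (secL 0 (na (secL 0 (na []))))) = [0, 64, 0, 0] by decide +kernel,
      show secL 1 (nb (secL 0 (na (secL 0 (na [])))) (secL 0 (nb (secL 0 (na [])) (secL 0 (nb [] []))))) =
        [214, 240, 192, 128] by decide +kernel] at s3
    refine fin ((v1.s1 h1).1.s1 h1).2 s3 w3 ?_ ?_ ?_ ?_ <;> simp <;> omega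
  · obtain ⟨-, s3, w3⟩ := st w1 s1 1
    rw [show secL 1 (na (secL 0 (na []))) = [160, 64, 0, 0] by decide +kernel,
      show secL 1 (nb (secL 0 (na [])) (secL 0 (nb [] []))) = [214, 208, 128, 128] by decide +kernel] at s3
    refine fin (v1.s1 h1).2 s3 w3 ?_ ?_ ?_ ?_ <;> simp <;> omega

theorem result (m : ℕ) (hm : m % 8 = 6) (B : ℕ) : ∃ n, 4 ^ B ∣ S 4 m (3 * m) n := by
  obtain ⟨u, rfl⟩ : ∃ u, m = 8 * u + 6 := ⟨m / 8, by omega⟩
  have h : ∀ b, ∃ D, Inv D ∧ Val (8 * u + 6) (Bt (C (4 ^ (b + 3)) * D)) := fun b => by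
    induction b with
    | zero => exact base u
    | succ b ih =>
      obtain ⟨D, i, v⟩ := ih
      obtain ⟨q, hq, E, i', e⟩ := step (2 * u + 1) i
      refine ⟨E, i', ?_⟩
      have h1 := sc_lin q (4 ^ (b + 3) - 1) (D * g ^ (8 * u + 6)) (D * g ^ (8 * u + 6))
      rw [show 2 * (2 * (2 * u + 1) + 1) = 8 * u + 6 by ring] at e
      convert v.s0 hq using 2
      rw [show C (4 ^ (b + 3)) * D * g ^ (8 * u + 6) = D * g ^ (8 * u + 6) + C (4 ^ (b + 3) - 1) * (D * g ^ (8 * u + 6)) by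
        rw [map_sub, map_one]; ring, h1, e]
      simp only [map_sub, map_one, map_pow, map_ofNat]
      ring
  obtain ⟨D, -, v⟩ := h B
  obtain ⟨n, hn⟩ := v 0
  refine ⟨n, Int.natCast_dvd_natCast.mp ?_⟩
  rw [S4_cast, ← hn, coeff_zero_eq_constantCoeff_apply, map_mul, ← coeff_zero_eq_constantCoeff_apply, coeff_Bt]
  simp only [zero_add, sum_range_one, coeff_C_mul]
  push_cast
  exact Dvd.intro (4 ^ 3 * coeff 0 D * constantCoeff (F4 ℤ ^ (8 * u + 6))) (by simp; ring)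

end Pool.Agent.Results.MP_53b42b_nt.Full
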